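import Pool.Agent.W314.BA.Stm

/-! MP_f2742c_an, project BA of helper314: almost everywhere convergence from decay in `L²`. -/

set_option autoImplicit false

open MeasureTheory Set Filter Topology Real
open scoped ENNReal NNReal
open Pool.Agent.W314.BA

namespace Pool.Agent.W748.BA

noncomputable section

lemma summable_pow {κ η : ℝ} (C : ℝ) (hκ : 0 < κ) (hη : 0 < η) :
    Summable (fun j : ℕ => C * (2 * (1 + η) ^ j) ^ (-κ)) := by
  have h1 : (1 + η) ^ (-κ) < 1 := Real.rpow_lt_one_of_one_lt_of_neg (by linarith) (by linarith)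
  have h0 : 0 ≤ (1 + η) ^ (-κ) := by positivity
  have h2 := ((summable_geometric_of_lt_one h0 h1).mul_left (C * 2 ^ (-κ)))
  refine h2.congr fun j => ?_
  rw [Real.mul_rpow (by norm_num) (by positivity), ← Real.rpow_natCast, ← Real.rpow_natCast,
    ← Real.rpow_mul (by positivity), ← Real.rpow_mul (by positivity)]
  rw [mul_comm (j : ℝ) (-κ)]
  ring

theorem main (h : Basic1Stmt) : AeStmt := by
  intro Y _ _ μ c hS θ f hf κ C hκ hdec
  obtain ⟨b1, -, b3, b4⟩ := h Y μ c hS θ f hf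
  obtain ⟨hfm, M, hM⟩ := hf
  have hprob := hS.prob
  have hum : ∀ x, 1 < x → Measurable (tw c θ (bm x) f) := fun x hx => (b1 x hx).1
  have hub : ∀ x, 1 < x → ∀ y, ‖tw c θ (bm x) f y‖ ≤ M := fun x hx => b3 M x hx hM
  have c1 : ∀ η : ℝ, 0 < η → ∀ᵐ y ∂μ, Tendsto (fun j : ℕ => ‖tw c θ (bm (2 * (1 + η) ^ j)) f y‖) atTop (𝓝 0) := by
    intro η hη
    have hx2 : ∀ j : ℕ, 2 ≤ 2 * (1 + η) ^ j := by
      intro j
      have : 1 ≤ (1 + η) ^ j := one_le_pow₀ (by linarith)
      linarith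
    have hm : ∀ j : ℕ, Measurable (fun y => ENNReal.ofReal (‖tw c θ (bm (2 * (1 + η) ^ j)) f y‖ ^ 2)) := by
      intro j
      exact ((hum _ (by linarith [hx2 j])).norm.pow_const 2).ennreal_ofReal
    have hint : ∀ j : ℕ, ∫⁻ y, ENNReal.ofReal (‖tw c θ (bm (2 * (1 + η) ^ j)) f y‖ ^ 2) ∂μ ≤
        ENNReal.ofReal (C * (2 * (1 + η) ^ j) ^ (-κ)) := by
      intro j
      have hi : Integrable (fun y => ‖tw c θ (bm (2 * (1 + η) ^ j)) f y‖ ^ 2) μ := by
        refine Integrable.of_bound ((hum _ (by linarith [hx2 j])).norm.pow_const 2).aestronglyMeasurable (M ^ 2) ?_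
        refine ae_of_all _ fun y => ?_
        rw [Real.norm_eq_abs, abs_of_nonneg (by positivity)]
        exact pow_le_pow_left₀ (norm_nonneg _) (hub _ (by linarith [hx2 j]) y) 2
      rw [← ofReal_integral_eq_lintegral_ofReal hi (ae_of_all _ fun y => by positivity)]
      exact ENNReal.ofReal_le_ofReal (hdec _ (hx2 j))
    have hfin : ∫⁻ y, ∑' j : ℕ, ENNReal.ofReal (‖tw c θ (bm (2 * (1 + η) ^ j)) f y‖ ^ 2) ∂μ ≠ ⊤ := by
      rw [lintegral_tsum fun j => (hm j).aemeasurable]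
      refine ne_top_of_le_ne_top (summable_pow C hκ hη).tsum_ofReal_ne_top ?_
      exact ENNReal.tsum_le_tsum hint
    filter_upwards [ae_lt_top (Measurable.ennreal_tsum hm) hfin] with y hy
    have h1 := ENNReal.tendsto_atTop_zero_of_tsum_ne_top hy.ne
    have h2 := (ENNReal.tendsto_toReal ENNReal.zero_ne_top).comp h1
    have h3 : Tendsto (fun j : ℕ => ‖tw c θ (bm (2 * (1 + η) ^ j)) f y‖ ^ 2) atTop (𝓝 0) := by
      refine h2.congr fun j => ?_
      simp only [Function.comp]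
      rw [ENNReal.toReal_ofReal (by positivity)]
    have h4 := (Real.continuous_sqrt.tendsto 0).comp h3
    rw [Real.sqrt_zero] at h4
    refine h4.congr fun j => ?_
    simp only [Function.comp]
    rw [Real.sqrt_sq (norm_nonneg _)]
  have c2 : ∀ᵐ y ∂μ, ∀ k : ℕ, Tendsto (fun j : ℕ => ‖tw c θ (bm (2 * (1 + 1 / ((k : ℝ) + 1)) ^ j)) f y‖) atTop (𝓝 0) :=
    ae_all_iff.2 fun k => c1 _ (by positivity)
  filter_upwards [c2] with y hy
  have hM0 : 0 ≤ M := (norm_nonneg _).trans (hM y)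
  rw [Metric.tendsto_atTop]
  intro ε hε
  obtain ⟨k, hk⟩ := exists_nat_gt (4 * M / ε)
  set η : ℝ := 1 / ((k : ℝ) + 1) with hη
  have hη0 : 0 < η := by positivity
  have hMη : 2 * M * η < ε / 2 := by
    rw [hη, mul_one_div, div_lt_iff₀ (by positivity)]
    rw [div_lt_iff₀ hε] at hk
    nlinarith
  obtain ⟨J, hJ⟩ := (Metric.tendsto_atTop.1 (hy k)) (ε / 2) (by positivity)
  refine ⟨2 * (1 + η) ^ J, fun x hx => ?_⟩
  have hJ1 : 1 ≤ (1 + η) ^ J := one_le_pow₀ (by linarith)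
  have hx2 : 2 ≤ x := by linarith
  obtain ⟨j, hj1, hj2⟩ := exists_nat_pow_near (x := x / 2) (y := 1 + η) (by linarith) (by linarith)
  have hjJ : J ≤ j := by
    by_contra hcon
    push Not at hcon
    have h1 : (1 + η) ^ (j + 1) ≤ (1 + η) ^ J := pow_le_pow_right₀ (by linarith) hcon
    linarith
  have h1 := hJ j hjJ
  rw [Real.dist_eq, sub_zero, abs_of_nonneg (norm_nonneg _), ← hη] at h1
  set xj : ℝ := 2 * (1 + η) ^ j with hxj
  have hxj2 : 2 ≤ xj := by
    have : 1 ≤ (1 + η) ^ j := one_le_pow₀ (by linarith)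
    linarith
  have hxjx : xj ≤ x := by linarith
  have hxxj : x - xj ≤ xj * η := by
    rw [pow_succ] at hj2
    rw [hxj]
    nlinarith
  have h2 := b4 M x xj (by linarith) (by linarith) hM y
  rw [abs_of_nonneg (by linarith : 0 ≤ x - xj)] at h2
  have h3 : (x - 1) * ‖tw c θ (bm x) f y‖ ≤ (xj - 1) * ‖tw c θ (bm xj) f y‖ + M * (x - xj) := by
    have h4 : ‖(x - 1) • tw c θ (bm x) f y‖ ≤ ‖(xj - 1) • tw c θ (bm xj) f y‖ +
        ‖(x - 1) • tw c θ (bm x) f y - (xj - 1) • tw c θ (bm xj) f y‖ := by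
      have := norm_add_le ((xj - 1) • tw c θ (bm xj) f y)
        ((x - 1) • tw c θ (bm x) f y - (xj - 1) • tw c θ (bm xj) f y)
      rwa [add_sub_cancel] at this
    rw [norm_smul, norm_smul, Real.norm_eq_abs, Real.norm_eq_abs, abs_of_nonneg (by linarith : 0 ≤ x - 1),
      abs_of_nonneg (by linarith : 0 ≤ xj - 1)] at h4
    linarith
  have h5 : ‖tw c θ (bm x) f y‖ ≤ ‖tw c θ (bm xj) f y‖ + 2 * M * η := by
    have hn := norm_nonneg (tw c θ (bm xj) f y)
    have h6 : (xj - 1) * ‖tw c θ (bm xj) f y‖ ≤ (x - 1) * ‖tw c θ (bm xj) f y‖ :=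
      mul_le_mul_of_nonneg_right (by linarith) hn
    have h7 : M * (x - xj) ≤ (x - 1) * (2 * M * η) := by
      have h8 : M * (x - xj) ≤ M * (xj * η) := mul_le_mul_of_nonneg_left hxxj hM0
      have h9 : xj ≤ 2 * (x - 1) := by linarith
      have h10 : (M * η) * xj ≤ (M * η) * (2 * (x - 1)) := mul_le_mul_of_nonneg_left h9 (by positivity)
      linarith
    have h11 : (x - 1) * ‖tw c θ (bm x) f y‖ ≤ (x - 1) * (‖tw c θ (bm xj) f y‖ + 2 * M * η) := by
      rw [mul_add]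
      linarith
    exact le_of_mul_le_mul_left h11 (by linarith)
  rw [dist_zero_right]
  linarith

end

end Pool.Agent.W748.BA
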